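import Pool.Agent.Y205.MD.Free
import Pool.Agent.Y205.MD.NearAll
import Pool.Agent.TH442.NF.HH
import Pool.Agent.TH885.CO.Plus
import Pool.Agent.TH885.CO.Conv
import Pool.Agent.TH760.EN.Asm
import Pool.Agent.TH469.SX.TwentyOne
import Pool.Agent.TH105.NU.All
import Pool.Agent.TH2.NU.Final
import Pool.Agent.TH759.EV.Pow

set_option autoImplicit false

/-!
# Vectors of multiplicities which are never special, and the classes below them
-/

namespace Pool.Agent.Y536.SH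

open MvPolynomial Finset Pool.Agent.H932R3 Pool.Agent.TH442.NF

/-- Several multiplicities of arbitrary ratios. With `μ` the largest multiplicity and
`D = √(∑ (v i) ^ 2) ≥ k`: outside a set `E` of points with `30 μ ∑_E v i ≤ D` exactly `r` different
values occur, `40 r μ ≤ D`, one of them is `μ`, and every value `x` taken by `N` of these points
satisfies `1 ≤ x`, `16 μ ≤ N x` and `4 ∑ v i ≤ N x μ`. -/
def Several {k : ℕ} (v : Fin k → ℕ) : Prop :=
  ∃ (E : Finset (Fin k)) (μ : ℕ), (∀ i, v i ≤ μ) ∧ (∃ i ∉ E, v i = μ) ∧ (∀ i ∉ E, 1 ≤ v i) ∧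
    (k : ℝ) ≤ √(∑ i, (v i : ℝ) ^ 2) ∧
    30 * (μ : ℝ) * ∑ i ∈ E, (v i : ℝ) ≤ √(∑ i, (v i : ℝ) ^ 2) ∧
    40 * ((Eᶜ.image v).card : ℝ) * μ ≤ √(∑ i, (v i : ℝ) ^ 2) ∧
    (∀ i ∉ E, 16 * (μ : ℝ) ≤ ((Eᶜ.filter fun j => v j = v i).card : ℝ) * v i) ∧
    ∀ i ∉ E, 4 * ∑ j, (v j : ℝ) ≤ ((Eᶜ.filter fun j => v j = v i).card : ℝ) * v i * μ

/-- Vectors of multiplicities which are special in no degree. -/
def Tame (N0 : ℕ) {k : ℕ} (v : Fin k → ℕ) : Prop :=
  ((37 ≤ k ∨ k = 21) ∧ ∃ m, 1 ≤ m ∧ ∀ i, v i = m) ∨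
  ((N0 ≤ k ∨ (144 ≤ k ∧ 4 ∣ k) ∨ ∃ j, k = 4 ^ (j + 2) ∨ k = 9 * 4 ^ (j + 1) ∨ k = 13 * 4 ^ j) ∧
    ∃ m, 1 ≤ m ∧ ∀ i, v i = m ∨ v i = m + 1) ∨
  (∃ m s : ℕ, 1 ≤ m ∧ (∀ i, m ≤ v i ∧ v i ≤ m + s) ∧ 1000 * ((s : ℝ) + 1) ≤ √(k : ℝ) ∧
    1000000 * ((s : ℝ) + 1) ^ 3 ≤ m * √(k : ℝ)) ∨
  Several v

/-- The tame vectors are never special. -/
def TameExp (N0 : ℕ) : Prop :=
  ∀ (k : ℕ) (v : Fin k → ℕ), Tame N0 v → ∀ (K : Type) [Field K] [CharZero K],
    ∃ F : MvPolynomial (Fin k × Fin 2) ℚ, F ≠ 0 ∧ ∀ P : Fin k → Fin 2 → K,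
      aeval (fun ij : Fin k × Fin 2 => P ij.1 ij.2) F ≠ 0 → ∀ d, ExpDim K v P d

theorem tame_exp : ∃ N0 : ℕ, TameExp N0 := by
  obtain ⟨N0, hN0⟩ := Pool.Agent.TH105.NU.expDim_near
  refine ⟨N0, fun k v hv K _ _ => ?_⟩
  rcases hv with ⟨hk, m, h0, hm⟩ | ⟨hk, m, h0, hm⟩ | ⟨m, s, h0, h1, h2, h3⟩ |
    ⟨E, μ, h1, h2, h3, h4, h5, h6, h7, h8⟩
  · have e : v = fun _ => m := funext hm
    subst e
    rcases hk with hk | rfl
    · exact Pool.Agent.TH760.EN.expDim37 hk h0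
    · obtain ⟨F, hF, hF'⟩ := Pool.Agent.TH469.SX.twentyone m
      exact ⟨F, hF, fun P hP d => hF' P hP d⟩
  · rcases hk with hk | ⟨hk, N, rfl⟩ | ⟨j, hj⟩
    · exact hN0 k hk m h0 v hm
    · exact Pool.Agent.TH2.NU.near4 (by omega) h0 hm
    · obtain ⟨F, hF, hF'⟩ := Pool.Agent.TH759.EV.expDim_of_NU (Pool.Agent.TH759.EV.NU_all hj) h0 hm
      exact ⟨F, hF, fun P hP d => hF' P hP d⟩
  · exact Pool.Agent.Y205.MD.near_all K h0 (fun p => (h1 p).1) (fun p => (h1 p).2) h2 h3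
  · obtain ⟨F, hF, hF'⟩ := Pool.Agent.Y205.MD.every_degree_free E rfl h1 h2 h3 h4 h6 h7 h8 h5
    exact ⟨F, hF, fun P hP => hF' P hP⟩

/-- The class `(d; w)` is standard. -/
def Standard {n : ℕ} (d : ℕ) (w : Fin n → ℕ) : Prop :=
  ∀ i j k : Fin n, i ≠ j → i ≠ k → j ≠ k → w i + w j + w k ≤ d

/-- Standard classes of expected dimension. For some `k ≥ 10` of the points either `√k d < ∑ w`,
or `w` is at most a tame vector `v` there, equal to it or with `χ (d; v) ≥ 0`, and at most `1` at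
the other points; or `d ≥ 2 ^ 17 (4 m ^ 2 + 8 m + 5) ^ 4` for some `m ≥ 1` such that at most five
multiplicities are larger than `m`, or those larger than `m` have a sum
`≤ 2 d - (4 m ^ 2 + 8 m + 5)`. -/
def Good (N0 : ℕ) {n : ℕ} (d : ℕ) (w : Fin n → ℕ) : Prop :=
  (∃ (k : ℕ) (e : Fin k ↪ Fin n), 10 ≤ k ∧
    (√(k : ℝ) * d < ∑ j, (w (e j) : ℝ) ∨
      (∀ i, i ∉ Set.range e → w i ≤ 1) ∧
      ∃ v : Fin k → ℕ, Tame N0 v ∧ (∀ j, w (e j) ≤ v j) ∧
        ((∀ j, w (e j) = v j) ∨ ∑ j, (v j + 1).choose 2 ≤ (d + 2).choose 2))) ∨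
  ∃ m : ℕ, 1 ≤ m ∧ 131072 * (4 * m ^ 2 + 8 * m + 5) ^ 4 ≤ d ∧
    ((univ.filter fun i => m < w i).card ≤ 5 ∨
      (∑ i, if m < w i then w i else 0) + (4 * m ^ 2 + 8 * m + 5) ≤ 2 * d)

theorem exp_of_bot {K : Type} [Field K] {n : ℕ} {w : Fin n → ℕ} {P : Fin n → Fin 2 → K} {d : ℕ}
    (h : Pool.Agent.H248R5.forms w P d = ⊥) (h2 : (d + 2).choose 2 ≤ ∑ i, (w i + 1).choose 2) :
    ExpDim K w P d := by
  have e : Module.finrank K ↥(Pool.Agent.H248R5.forms w P d) =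
      (d + 2).choose 2 - ∑ i, (w i + 1).choose 2 := by
    rw [h, finrank_bot, Nat.sub_eq_zero_of_le h2]
  exact e

/-- The Nagata range has a negative Euler characteristic. -/
theorem nagata_chi {k d : ℕ} (hk : 10 ≤ k) {u : Fin k → ℕ} (h : √(k : ℝ) * d < ∑ j, (u j : ℝ)) :
    (d + 2).choose 2 ≤ ∑ j, (u j + 1).choose 2 := by
  have hkR : (10 : ℝ) ≤ k := by exact_mod_cast hk
  obtain ⟨s, hs⟩ : ∃ s, s = √(k : ℝ) := ⟨_, rfl⟩
  have hss : s * s = k := by rw [hs]; exact Real.mul_self_sqrt (by linarith)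
  have hs3 : 3 ≤ s := by rw [hs]; exact Real.le_sqrt_of_sq_le (by norm_num; linarith)
  rw [← hs] at h
  obtain ⟨W, hW⟩ : ∃ W : ℕ, W = ∑ j, u j := ⟨_, rfl⟩
  have hWR : (W : ℝ) = ∑ j, (u j : ℝ) := by rw [hW]; push_cast; rfl
  obtain ⟨Q, hQ⟩ : ∃ Q : ℕ, Q = ∑ j, u j ^ 2 := ⟨_, rfl⟩
  have hQR : (Q : ℝ) = ∑ j, (u j : ℝ) ^ 2 := by rw [hQ]; push_cast; rfl
  have hcs : (W : ℝ) ^ 2 ≤ k * Q := by
    rw [hWR, hQR]
    have h2 := Finset.sum_mul_sq_le_sq_mul_sq (Finset.univ : Finset (Fin k)) (fun _ => (1 : ℝ))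
      (fun j => (u j : ℝ))
    simpa using h2
  rw [← hWR] at h
  have hd0 : (0 : ℝ) ≤ d := Nat.cast_nonneg d
  have hQ1 : (d : ℝ) ^ 2 < Q := by
    have h3 : (s * d) ^ 2 < (W : ℝ) ^ 2 := by
      refine pow_lt_pow_left₀ h (by positivity) (by norm_num)
    have h4 : (s * d) ^ 2 = k * (d : ℝ) ^ 2 := by rw [← hss]; ring
    rw [h4] at h3
    have h5 : (k : ℝ) * (d : ℝ) ^ 2 < k * Q := lt_of_lt_of_le h3 hcs
    exact lt_of_mul_lt_mul_left h5 (by linarith)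
  have hQ2 : d ^ 2 < Q := by exact_mod_cast hQ1
  have hW1 : (3 : ℝ) * d < W := lt_of_le_of_lt (mul_le_mul_of_nonneg_right hs3 hd0) h
  have hW2 : 3 * d < W := by exact_mod_cast hW1
  have e2 : (d + 2).choose 2 * 2 = (d + 2) * (d + 1) := by
    rw [Nat.choose_two_right]
    exact Nat.div_mul_cancel (Nat.even_mul_pred_self (d + 2)).two_dvd
  have e1 : (∑ j, (u j + 1).choose 2) * 2 = Q + W := by
    rw [Finset.sum_mul, hQ, hW, ← Finset.sum_add_distrib]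
    refine Finset.sum_congr rfl fun j _ => ?_
    rw [Nat.choose_two_right, Nat.add_sub_cancel,
      Nat.div_mul_cancel (by rw [mul_comm]; exact (Nat.even_mul_succ_self (u j)).two_dvd)]
    ring
  nlinarith

theorem forms_fin {L : Type*} [Field L] {n : ℕ} (w : Fin n → ℕ) (P : Fin n → Fin 2 → L)
    (d : ℕ) : Module.Finite L ↥(Pool.Agent.H248R5.forms w P d) := by
  have h : Module.Finite L ↥(homogeneousSubmodule (Fin 3) L d) :=
    Module.Finite.iff_fg.2 (homogeneousSubmodule_fg _ _ d)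
  exact Submodule.finiteDimensional_of_le (S₁ := Pool.Agent.H248R5.forms w P d)
    (S₂ := homogeneousSubmodule (Fin 3) L d) inf_le_left

theorem forms_sub {K : Type} [Field K] {k n : ℕ} (e : Fin k ↪ Fin n) (w : Fin n → ℕ)
    (P : Fin n → Fin 2 → K) (d : ℕ) :
    Pool.Agent.H248R5.forms w P d ≤
      Pool.Agent.H248R5.forms (fun j => w (e j)) (fun j => P (e j)) d := by
  intro G hG
  unfold Pool.Agent.H248R5.forms at hG ⊢
  rw [Submodule.mem_inf, Submodule.restrictScalars_mem, Ideal.mem_iInf] at hG ⊢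
  exact ⟨hG.1, fun j => hG.2 (e j)⟩

/-- Good standard classes have the expected dimension at generic points. -/
theorem good_exp {N0 : ℕ} (hN0 : TameExp N0) {n d : ℕ} {w : Fin n → ℕ} (hn : 4 ≤ n)
    (hs : Standard d w) (hG : Good N0 d w) {K : Type} [Field K] [CharZero K]
    {P : Fin n → Fin 2 → K}
    (hP : AlgebraicIndependent ℚ (fun ij : Fin n × Fin 2 => P ij.1 ij.2)) : ExpDim K w P d := by
  rcases hG with ⟨k, e, hk, hG⟩ | ⟨m, hm, hd, hF⟩
  · rcases hG with h | ⟨hw, v, hv, hle, h⟩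
    · have hPe : AlgebraicIndependent ℚ
          (fun ij : Fin k × Fin 2 => (fun j => P (e j)) ij.1 ij.2) :=
        Pool.Agent.TH885.CO.alg_emb e hP
      have h1 := up_nagata (P := fun j => P (e j)) hk hPe (d := d) (w := fun j => w (e j))
        (d' := d) (w' := fun j => w (e j)) Relation.ReflTransGen.refl h
      have h2 := nagata_chi hk h
      have h3 : Module.finrank K ↥(Pool.Agent.H248R5.forms (fun j => w (e j))
          (fun j => P (e j)) d) = (d + 2).choose 2 - ∑ j, (w (e j) + 1).choose 2 := h1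
      rw [Nat.sub_eq_zero_of_le h2] at h3
      have hfin : Module.Finite K ↥(Pool.Agent.H248R5.forms (fun j => w (e j))
          (fun j => P (e j)) d) := forms_fin _ _ _
      have h4 := Submodule.finrank_eq_zero.1 h3
      have h5 : Pool.Agent.H248R5.forms w P d = ⊥ := by
        rw [eq_bot_iff, ← h4]
        exact forms_sub e w P d
      refine exp_of_bot h5 (h2.trans ?_)
      rw [← Finset.sum_map Finset.univ e fun i => (w i + 1).choose 2]
      exact Finset.sum_le_sum_of_subset (Finset.subset_univ _)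
    · obtain ⟨F, hF, hF'⟩ := hN0 k v hv K
      have h1 := Pool.Agent.TH885.CO.exp_plus e (w := w) (d := d)
        (fun i hi => hw i fun ⟨a, ha⟩ => hi (Finset.mem_map.2 ⟨a, Finset.mem_univ _, ha⟩))
        ⟨F, hF, fun Q hQ => by
          rcases h with h | h
          · have e1 : (fun j => w (e j)) = v := funext h
            rw [e1]
            exact hF' Q hQ d
          · exact exp_mono (hF' Q hQ d) h hle⟩ hP
      have h2 : Module.finrank K ↥(Pool.Agent.TH167.SHDefs.sys P d w) =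
          (d + 2).choose 2 - ∑ j, (w j + 1).choose 2 := by
        rw [Pool.Agent.TH885.CO.sys_eq]
        exact h1
      exact h2
  · obtain ⟨r, rfl⟩ : ∃ r, n = r + 4 := ⟨n - 4, by omega⟩
    rcases Pool.Agent.TH167.SH.red_case (m := m) hm rfl hP hF hs with h1 | h1
    · have h2 : Module.finrank K ↥(Pool.Agent.TH167.SHDefs.sys P d w) =
          (d + 2).choose 2 - ∑ j, (w j + 1).choose 2 := by
        rw [Pool.Agent.TH885.CO.sys_eq]
        exact h1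
      exact h2
    · exact absurd h1.1 (not_lt.2 hd)

/-- The classes in the Weyl group orbit of a good standard class. -/
theorem orbit_exp {N0 : ℕ} (hN0 : TameExp N0)
    {n : ℕ} (hn : 4 ≤ n) {K : Type} [Field K] [CharZero K] {P : Fin n → Fin 2 → K}
    (hP : AlgebraicIndependent ℚ (fun ij : Fin n × Fin 2 => P ij.1 ij.2)) {d : ℕ} {w : Fin n → ℕ}
    {d' : ℕ} {w' : Fin n → ℕ} (h : Ch (cls d w) (cls d' w')) (hs : Standard d' w')
    (hG : Good N0 d' w') : ExpDim K w P d :=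
  up_enef hP h (enef_of_std hn P hs) (good_exp hN0 hn hs hG hP)

end Pool.Agent.Y536.SH
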