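import Pool.Agent.H248R6.All
import Pool.Agent.Y205.MD.NearAll

set_option autoImplicit false

/-!
# Vectors of nearly equal multiplicities: the general member in all degrees
-/

namespace Pool.Agent.Y536.SH

open MvPolynomial Pool.Agent.H248R5 Pool.Agent.H248R6

/-- One hypersurface for all degrees and all vectors of multiplicities below a given one. -/
theorem open_allw {K : Type} [Field K] [CharZero K] {n : ℕ} (v : Fin n → ℕ) (hn : 0 < n)
    (good : ℕ → Prop) (D0 : ℕ)
    (h1 : ∀ e, good (e + 1) → ∀ (L : Type) [Field L] [CharZero L] (P : Fin n → Fin 2 → L),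
      AlgebraicIndependent ℚ (fun ij : Fin n × Fin 2 => P ij.1 ij.2) →
      (∀ k, Function.Surjective (ev (Function.update v k (v k + 1)) P (e + 1))) ∧
      Function.Surjective (ev (fun i => v i - 1) P e))
    (h2 : ∃ F : MvPolynomial (Fin n × Fin 2) ℚ, F ≠ 0 ∧ ∀ P : Fin n → Fin 2 → K,
      aeval (fun ij : Fin n × Fin 2 => P ij.1 ij.2) F ≠ 0 → ∀ e, good (e + 1) → ∀ k,
        Function.Surjective (ev (Function.update v k (v k + 1)) P (e + 1)))
    (h3 : ∃ F : MvPolynomial (Fin n × Fin 2) ℚ, F ≠ 0 ∧ ∀ P : Fin n → Fin 2 → K,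
      aeval (fun ij : Fin n × Fin 2 => P ij.1 ij.2) F ≠ 0 → ∀ d, D0 ≤ d →
        Function.Surjective (ev v P d)) :
    ∃ F : MvPolynomial (Fin n × Fin 2) ℚ, F ≠ 0 ∧ ∀ P : Fin n → Fin 2 → K,
      aeval (fun ij : Fin n × Fin 2 => P ij.1 ij.2) F ≠ 0 →
      ∀ w : Fin n → ℕ, (∀ i, w i ≤ v i) → ∀ e, (good (e + 1) ∨ D0 ≤ e) →
        Module.finrank K ↥(forms w P (e + 1)) + ∑ i, (w i + 1).choose 2 = (e + 3).choose 2 ∧
          GeneralMember (forms w P (e + 1)) (SmoothMember w P) := by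
  classical
  obtain ⟨F2, hF2, hF2'⟩ := h2
  obtain ⟨F3, hF3, hF3'⟩ := h3
  have hup : ∀ {L : Type} [Field L] {P : Fin n → Fin 2 → L} {w : Fin n → ℕ} {e : ℕ},
      (∀ i, w i ≤ v i) →
      (∀ k, Function.Surjective (ev (Function.update v k (v k + 1)) P (e + 1))) →
      (∀ k, Function.Surjective (ev (Function.update w k (w k + 1)) P (e + 1))) ∧
      Function.Surjective (ev w P (e + 1)) := by
    intro L _ P w e hw hs
    have h4 : ∀ k, Function.Surjective (ev (Function.update w k (w k + 1)) P (e + 1)) := by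
      intro k
      refine surj_mono (fun i => ?_) (hs k)
      by_cases hi : i = k
      · subst hi
        rw [Function.update_self, Function.update_self]
        have := hw i
        omega
      · rw [Function.update_of_ne hi, Function.update_of_ne hi]
        exact hw i
    refine ⟨h4, surj_mono (fun i => ?_) (h4 ⟨0, hn⟩)⟩
    by_cases hi : i = ⟨0, hn⟩
    · subst hi
      rw [Function.update_self]
      omega
    · rw [Function.update_of_ne hi]
  have key : ∀ x : (∀ i, Fin (v i + 1)) × Fin D0, ∃ F : MvPolynomial (Fin n × Fin 2) ℚ,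
      F ≠ 0 ∧ (good ((x.2 : ℕ) + 1) → ∀ P : Fin n → Fin 2 → K,
        aeval (fun ij : Fin n × Fin 2 => P ij.1 ij.2) F ≠ 0 →
        Module.finrank K ↥(forms (fun i => (x.1 i : ℕ)) P ((x.2 : ℕ) + 1)) +
            ∑ i, ((x.1 i : ℕ) + 1).choose 2 = ((x.2 : ℕ) + 3).choose 2 ∧
          GeneralMember (forms (fun i => (x.1 i : ℕ)) P ((x.2 : ℕ) + 1))
            (SmoothMember (fun i => (x.1 i : ℕ)) P)) := by
    intro x
    by_cases hx : good ((x.2 : ℕ) + 1)
    · have hw : ∀ i, (fun i => (x.1 i : ℕ)) i ≤ v i := fun i => by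
        have := (x.1 i).2
        simp only
        omega
      obtain ⟨F, hF, hF'⟩ := open_main (K := K) (n := n) (e := (x.2 : ℕ))
        (w := fun i => (x.1 i : ℕ))
        (fun L _ _ P hP => by
          obtain ⟨a1, a2⟩ := h1 _ hx L P hP
          obtain ⟨b1, b2⟩ := hup hw a1
          refine ⟨b1, b2, surj_mono (fun i => ?_) a2⟩
          exact Nat.sub_le_sub_right (hw i) 1)
        ⟨F2, hF2, fun P hP => hup hw (hF2' P hP _ hx)⟩
      exact ⟨F, hF, fun _ => hF'⟩
    · exact ⟨1, one_ne_zero, fun h => absurd h hx⟩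
  choose G hG hG' using key
  refine ⟨F2 * F3 * disc ℚ n * ∏ x, G x, mul_ne_zero (mul_ne_zero (mul_ne_zero hF2 hF3)
    (disc_ne ℚ n)) (Finset.prod_ne_zero_iff.2 fun x _ => hG x), fun P hP w hw e he => ?_⟩
  rw [map_mul, map_mul, map_mul, map_prod] at hP
  have hP2 := left_ne_zero_of_mul (left_ne_zero_of_mul (left_ne_zero_of_mul hP))
  have hP3 := right_ne_zero_of_mul (left_ne_zero_of_mul (left_ne_zero_of_mul hP))
  have hPd := inj_of_disc' (right_ne_zero_of_mul (left_ne_zero_of_mul hP))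
  rcases Nat.lt_or_ge e D0 with h0 | h0
  · have hg : good (e + 1) := he.resolve_right (by omega)
    let u : ∀ i, Fin (v i + 1) := fun i => ⟨w i, Nat.lt_succ_of_le (hw i)⟩
    have hx := Finset.prod_ne_zero_iff.1 (right_ne_zero_of_mul hP) (u, (⟨e, h0⟩ : Fin D0))
      (Finset.mem_univ _)
    have h5 := hG' (u, (⟨e, h0⟩ : Fin D0)) hg P hx
    have hu : (fun i => (u i : ℕ)) = w := rfl
    simp only [hu] at h5
    exact h5
  · have a1 := surj_mono (w := w) hw (hF3' P hP3 e h0)
    have a2 := surj_mono (w := w) hw (hF3' P hP3 (e + 1) (by omega))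
    exact ⟨finrank_of_surj a2, general_smooth hPd (finrank_of_surj a1).le⟩

theorem surj_of_exp {K : Type} [Field K] {n : ℕ} {w : Fin n → ℕ} {P : Fin n → Fin 2 → K} {d : ℕ}
    (h : H932R3.ExpDim K w P d) (hd : ∑ i, (w i + 1).choose 2 ≤ (d + 2).choose 2) :
    Function.Surjective (ev w P d) := by
  refine surj_of_ind ?_
  have h1 : Module.finrank K ↥(forms w P d) = (d + 2).choose 2 - ∑ i, (w i + 1).choose 2 := h
  omega

theorem sum_updw {n : ℕ} (v : Fin n → ℕ) (k : Fin n) :
    ∑ i, (Function.update v k (v k + 1) i + 1).choose 2 = ∑ i, (v i + 1).choose 2 + v k + 1 := by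
  classical
  have h1 : ∀ i, (Function.update v k (v k + 1) i + 1).choose 2 =
      (v i + 1).choose 2 + if i = k then v k + 1 else 0 := by
    intro i
    by_cases hi : i = k
    · subst hi
      rw [Function.update_self, if_pos rfl]
      have := two_choose (v i)
      have h2 := two_choose (v i + 1)
      nlinarith
    · rw [Function.update_of_ne hi, if_neg hi, add_zero]
  rw [Finset.sum_congr rfl fun i _ => h1 i, Finset.sum_add_distrib, Finset.sum_ite_eq',
    if_pos (Finset.mem_univ k), add_assoc]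

/-- The vector of the numbers `v i - 1` in the preceding degree. -/
theorem num_w {n e : ℕ} {v : Fin n → ℕ}
    (h : ∑ i, (v i + 1).choose 2 ≤ (e + 3).choose 2) :
    ∑ i, (v i - 1 + 1).choose 2 ≤ (e + 2).choose 2 := by
  have h3 := two_choose (e + 1)
  have h4 := two_choose (e + 2)
  have e3 : e + 1 + 1 = e + 2 := rfl
  have e4 : e + 2 + 1 = e + 3 := rfl
  rw [e3] at h3
  rw [e4] at h4
  have t : ∀ i, (v i - 1 + 1).choose 2 + v i = (v i + 1).choose 2 := by
    intro i
    rcases Nat.eq_zero_or_pos (v i) with h0 | h0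
    · rw [h0]
      rfl
    · obtain ⟨m, hm⟩ : ∃ m, v i = m + 1 := ⟨v i - 1, by omega⟩
      have h1 := two_choose m
      have h2 := two_choose (m + 1)
      rw [hm, Nat.add_sub_cancel]
      nlinarith
  have h5 : ∑ i, (v i - 1 + 1).choose 2 + ∑ i, v i = ∑ i, (v i + 1).choose 2 := by
    rw [← Finset.sum_add_distrib]
    exact Finset.sum_congr rfl fun i _ => t i
  rcases Nat.le_total (e + 2) (∑ i, v i) with h6 | h6
  · nlinarith
  · have h7 : ∀ i, 2 * (v i - 1 + 1).choose 2 ≤ v i * (e + 1) := by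
      intro i
      have h8 : v i ≤ ∑ i, v i :=
        Finset.single_le_sum (fun _ _ => Nat.zero_le _) (Finset.mem_univ i)
      rw [two_choose]
      rcases Nat.eq_zero_or_pos (v i) with h0 | h0
      · rw [h0]
        simp
      · rw [Nat.sub_add_cancel h0]
        exact Nat.mul_le_mul le_rfl (by omega)
    have h9 : 2 * ∑ i, (v i - 1 + 1).choose 2 ≤ (∑ i, v i) * (e + 1) := by
      rw [Finset.mul_sum, Finset.sum_mul]
      exact Finset.sum_le_sum fun i _ => h7 i
    have h10 : (∑ i, v i) * (e + 1) ≤ (e + 2) * (e + 1) := Nat.mul_le_mul h6 le_rfl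
    omega

/-- Vectors of nearly equal multiplicities: independence in all degrees, for `v + e k`. -/
theorem near_upd (L : Type) [Field L] [CharZero L] {n m s : ℕ} {v : Fin n → ℕ} (hm : 1 ≤ m)
    (hv : ∀ i, m ≤ v i ∧ v i ≤ m + s) (h1 : 1000 * ((s : ℝ) + 2) ≤ √(n : ℝ))
    (h2 : 2000000 * ((s : ℝ) + 2) ^ 3 ≤ m * √(n : ℝ)) (k : Fin n) :
    ∃ F : MvPolynomial (Fin n × Fin 2) ℚ, F ≠ 0 ∧ ∀ P : Fin n → Fin 2 → L,
      aeval (fun ij : Fin n × Fin 2 => P ij.1 ij.2) F ≠ 0 →
      ∀ d, H932R3.ExpDim L (Function.update v k (v k + 1)) P d := by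
  have hs0 : (0 : ℝ) ≤ s := Nat.cast_nonneg _
  refine Pool.Agent.Y205.MD.near_all L (m := m) (s := s + 1) hm (fun i => ?_) (fun i => ?_) ?_ ?_
  · by_cases hi : i = k
    · subst hi
      rw [Function.update_self]
      have := (hv i).1
      omega
    · rw [Function.update_of_ne hi]
      exact (hv i).1
  · by_cases hi : i = k
    · subst hi
      rw [Function.update_self]
      have := (hv i).2
      omega
    · rw [Function.update_of_ne hi]
      have := (hv i).2
      omega
  · push_cast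
    linarith
  · push_cast
    have e1 : ((s : ℝ) + 1 + 1) = s + 2 := by ring
    rw [e1]
    have : 0 ≤ ((s : ℝ) + 2) ^ 3 := by positivity
    linarith

/-- Vectors of nearly equal multiplicities: the vector of the numbers `v i - 1`. -/
theorem near_sub {L : Type} [Field L] [CharZero L] {n m s e : ℕ} {v : Fin n → ℕ} (hm : 1 ≤ m)
    (hv : ∀ i, m ≤ v i ∧ v i ≤ m + s) (h1 : 1000 * ((s : ℝ) + 2) ≤ √(n : ℝ))
    (h2 : 2000000 * ((s : ℝ) + 2) ^ 3 ≤ m * √(n : ℝ)) {P : Fin n → Fin 2 → L}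
    (hP : AlgebraicIndependent ℚ (fun ij : Fin n × Fin 2 => P ij.1 ij.2))
    (he : ∑ i, (v i + 1).choose 2 ≤ (e + 3).choose 2) :
    Function.Surjective (ev (fun i => v i - 1) P e) := by
  have hs0 : (0 : ℝ) ≤ s := Nat.cast_nonneg _
  have hq : √(n : ℝ) * √(n : ℝ) = n := Real.mul_self_sqrt (Nat.cast_nonneg n)
  have hq0 : (0 : ℝ) ≤ √(n : ℝ) := Real.sqrt_nonneg _
  have hc : (1 : ℝ) ≤ ((s : ℝ) + 2) ^ 3 := one_le_pow₀ (by linarith)
  rcases Nat.lt_or_ge m 2 with h3 | h3
  · obtain rfl : m = 1 := by omega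
    have h2' : 2000000 * ((s : ℝ) + 2) ^ 3 ≤ √(n : ℝ) := by
      simpa using h2
    -- the degree is large
    have hn : n ≤ (e + 3).choose 2 := by
      refine le_trans ?_ he
      have : ∑ i : Fin n, 1 ≤ ∑ i, (v i + 1).choose 2 := by
        refine Finset.sum_le_sum fun i _ => ?_
        exact Nat.choose_pos (by have := (hv i).1; omega)
      simpa using this
    have h4 := two_choose (e + 2)
    have e4 : e + 2 + 1 = e + 3 := rfl
    rw [e4] at h4
    have h5 : n ≤ (e + 3) * (e + 3) := by nlinarith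
    have h5R : (n : ℝ) ≤ ((e : ℝ) + 3) * (e + 3) := by exact_mod_cast h5
    have h6 : √(n : ℝ) ≤ e + 3 := by
      rw [Real.sqrt_le_left (by positivity)]
      rw [pow_two]
      exact h5R
    have h7 : 2000000 * ((s : ℝ) + 2) ^ 3 ≤ e + 3 := h2'.trans h6
    have h8 : 2000000 * (s + 2) ^ 3 ≤ e + 3 := by exact_mod_cast h7
    have h9 : W611.ff (s + 1) ≤ e := by
      have k1 : (s + 2) ^ 2 ≤ (s + 2) ^ 3 := Nat.pow_le_pow_right (by omega) (by norm_num)
      have k2 : (s + 1) * (s + 1) ≤ (s + 2) ^ 2 := by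
        rw [pow_two]
        exact Nat.mul_le_mul (by omega) (by omega)
      have k3 : s + 2 ≤ (s + 2) ^ 2 := by
        rw [pow_two]
        exact Nat.le_mul_of_pos_left _ (by omega)
      have e9 : W611.ff (s + 1) = 2 * ((s + 1) * (s + 1)) + 3 * (s + 1) + 2 := rfl
      rw [e9]
      omega
    obtain ⟨F, hF, hF'⟩ := W611.expH L (s + 1) (by omega) (fun i => v i - 1) (W611.ff (s + 1))
      ⟨le_rfl, fun i hi => absurd (hv i).2 (by omega), fun i j _ hi _ => absurd (hv i).2 (by omega),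
        Or.inl (by
          unfold W611.Nlg
          rw [Finset.sum_eq_zero fun i _ => if_pos (by
            show v i - 1 ≤ s + 1
            have := (hv i).2
            omega)]
          omega)⟩
    exact surj_of_exp (hF' P (aeval_ne hP hF) e (Or.inl h9)) (num_w he)
  · obtain ⟨F, hF, hF'⟩ := Pool.Agent.Y205.MD.near_all L (m := m - 1) (s := s)
      (w := fun i => v i - 1) (by omega) (fun i => Nat.sub_le_sub_right (hv i).1 1) (fun i => by
        have := (hv i).2
        omega) (by linarith) (by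
        have h4 : (m : ℝ) ≤ 2 * ((m - 1 : ℕ) : ℝ) := by
          have : m ≤ 2 * (m - 1) := by omega
          exact_mod_cast this
        have h5 : (m : ℝ) * √(n : ℝ) ≤ 2 * ((m - 1 : ℕ) : ℝ) * √(n : ℝ) :=
          mul_le_mul_of_nonneg_right h4 hq0
        have h6 : ((s : ℝ) + 1) ^ 3 ≤ (s + 2) ^ 3 := pow_le_pow_left₀ (by linarith)
          (by linarith) 3
        linarith)
    exact surj_of_exp (hF' P (aeval_ne hP hF) e) (num_w he)

theorem near_pos {n s : ℕ} (h1 : 1000 * ((s : ℝ) + 2) ≤ √(n : ℝ)) : 0 < n := by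
  rcases Nat.eq_zero_or_pos n with h | h
  · exfalso
    have hs0 : (0 : ℝ) ≤ s := Nat.cast_nonneg _
    rw [h] at h1
    simp at h1
    linarith
  · exact h

/-- **Nearly equal multiplicities**: all degrees, one hypersurface. -/
theorem near_smooth {K : Type} [Field K] [CharZero K] {n m s : ℕ} {v : Fin n → ℕ} (hm : 1 ≤ m)
    (hv : ∀ i, m ≤ v i ∧ v i ≤ m + s) (h1 : 1000 * ((s : ℝ) + 2) ≤ √(n : ℝ))
    (h2 : 2000000 * ((s : ℝ) + 2) ^ 3 ≤ m * √(n : ℝ)) :
    ∃ F : MvPolynomial (Fin n × Fin 2) ℚ, F ≠ 0 ∧ ∀ P : Fin n → Fin 2 → K,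
      aeval (fun ij : Fin n × Fin 2 => P ij.1 ij.2) F ≠ 0 →
      (∀ d, H932R3.ExpDim K v P d) ∧
      ∀ w : Fin n → ℕ, (∀ i, w i ≤ v i) → ∀ d,
        (∀ k, ∑ i, (v i + 1).choose 2 + v k + 1 ≤ (d + 2).choose 2) →
        Module.finrank K ↥(forms w P d) + ∑ i, (w i + 1).choose 2 = (d + 2).choose 2 ∧
          GeneralMember (forms w P d) (SmoothMember w P) := by
  classical
  have hn := near_pos h1
  have hs0 : (0 : ℝ) ≤ s := Nat.cast_nonneg _
  have hq0 : (0 : ℝ) ≤ √(n : ℝ) := Real.sqrt_nonneg _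
  choose G hG hG' using near_upd K hm hv h1 h2
  obtain ⟨F3, hF3, hF3'⟩ := Pool.Agent.Y205.MD.near_all K (m := m) (s := s) (w := v) hm
    (fun i => (hv i).1) (fun i => (hv i).2) (by linarith) (by
      have h6 : ((s : ℝ) + 1) ^ 3 ≤ (s + 2) ^ 3 := pow_le_pow_left₀ (by linarith)
          (by linarith) 3
      have : 0 ≤ ((s : ℝ) + 2) ^ 3 := by positivity
      linarith)
  obtain ⟨F, hF, hF'⟩ := open_allw (K := K) v hn
    (fun d => ∀ k, ∑ i, (v i + 1).choose 2 + v k + 1 ≤ (d + 2).choose 2)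
    (∑ i, (v i + 1).choose 2)
    (fun e he L _ _ P hP => ⟨fun k => by
      obtain ⟨F4, hF4, hF4'⟩ := near_upd L hm hv h1 h2 k
      refine surj_of_exp (hF4' P (aeval_ne hP hF4) (e + 1)) ?_
      rw [sum_updw]
      exact he k, near_sub hm hv h1 h2 hP (by
        have := he ⟨0, hn⟩
        have e1 : e + 1 + 2 = e + 3 := rfl
        rw [e1] at this
        omega)⟩)
    ⟨∏ k, G k, Finset.prod_ne_zero_iff.2 fun k _ => hG k, fun P hP e he k => by
      rw [map_prod] at hP
      refine surj_of_exp (hG' k P (Finset.prod_ne_zero_iff.1 hP k (Finset.mem_univ k))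
        (e + 1)) ?_
      rw [sum_updw]
      exact he k⟩
    ⟨F3, hF3, fun P hP d hd => surj_of_exp (hF3' P hP d) (hd.trans (by
      have h4 := two_choose (d + 1)
      have e4 : d + 1 + 1 = d + 2 := rfl
      rw [e4] at h4
      nlinarith))⟩
  refine ⟨F * F3, mul_ne_zero hF hF3, fun P hP => ?_⟩
  rw [map_mul] at hP
  refine ⟨fun d => hF3' P (right_ne_zero_of_mul hP) d, fun w hw d hd => ?_⟩
  obtain ⟨e, rfl⟩ : ∃ e, d = e + 1 := by
    refine ⟨d - 1, ?_⟩
    rcases Nat.eq_zero_or_pos d with h0 | h0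
    · exfalso
      subst h0
      have h5 := hd ⟨0, hn⟩
      have h6 : (0 + 2).choose 2 = 1 := rfl
      have h7 := (hv ⟨0, hn⟩).1
      omega
    · omega
  exact hF' P (left_ne_zero_of_mul hP) w hw e (Or.inl hd)

end Pool.Agent.Y536.SH
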